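import Mathlib

set_option linter.unusedSectionVars false

open MeasureTheory Filter Topology
open scoped ENNReal ComplexConjugate InnerProductSpace

namespace Pool.Agent.Lib.CompactAbelian

section Sep

variable {K : Type*} [CommGroup K] [TopologicalSpace K] [IsTopologicalGroup K] [CompactSpace K]
  [T2Space K] [MeasurableSpace K] [BorelSpace K] (μ : Measure K) [μ.IsHaarMeasure]

/-- The translation operator `f ↦ f (y * ·)` on `L²(K)`. -/
noncomputable def tr (y : K) : Lp ℂ 2 μ →L[ℂ] Lp ℂ 2 μ :=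
  LinearMap.mkContinuous
    { toFun := fun f => DomMulAct.mk y • f
      map_add' := fun f g => DomMulAct.smul_Lp_add _ f g
      map_smul' := fun c f => smul_comm _ c f } 1
    (fun f => by
      simp only [LinearMap.coe_mk, AddHom.coe_mk, one_mul]
      exact (DomMulAct.norm_smul_Lp _ f).le)

theorem tr_apply (y : K) (f : Lp ℂ 2 μ) : tr μ y f = DomMulAct.mk y • f := rfl

theorem norm_tr (y : K) (f : Lp ℂ 2 μ) : ‖tr μ y f‖ = ‖f‖ := DomMulAct.norm_smul_Lp _ f

theorem tr_mul_apply (y z : K) (f : Lp ℂ 2 μ) : tr μ (y * z) f = tr μ y (tr μ z f) := by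
  rw [tr_apply, tr_apply, tr_apply, smul_smul, mul_comm y z]
  rfl

theorem tr_one : tr μ 1 = 1 := by
  ext1 f
  rw [tr_apply]
  exact one_smul _ f

theorem tr_mul (y z : K) : tr μ (y * z) = tr μ y * tr μ z := by
  ext1 f
  exact tr_mul_apply μ y z f

theorem continuous_tr (f : Lp ℂ 2 μ) : Continuous (fun y => tr μ y f) := by
  have h : Continuous (fun y : K => DomMulAct.mk y) := DomMulAct.continuous_mk
  have : Fact ((2 : ℝ≥0∞) ≠ ∞) := ⟨by simp⟩
  exact h.smul continuous_const

theorem inner_tr (y : K) (f g : Lp ℂ 2 μ) : ⟪tr μ y f, tr μ y g⟫_ℂ = ⟪f, g⟫_ℂ := by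
  let L : Lp ℂ 2 μ →ₗᵢ[ℂ] Lp ℂ 2 μ := ⟨(tr μ y : Lp ℂ 2 μ →ₗ[ℂ] Lp ℂ 2 μ), norm_tr μ y⟩
  exact L.inner_map_map f g

theorem star_tr (y : K) : star (tr μ y) = tr μ y⁻¹ := by
  rw [ContinuousLinearMap.star_eq_adjoint]
  symm
  rw [ContinuousLinearMap.eq_adjoint_iff]
  intro f g
  rw [← inner_tr μ y, ← tr_mul_apply, mul_inv_cancel, tr_one]
  rfl

theorem integrable_conv (k : C(K, ℂ)) (f : Lp ℂ 2 μ) :
    Integrable (fun z => k z • tr μ z f) μ := by
  apply Continuous.integrable_of_hasCompactSupport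
  · exact k.continuous.smul (continuous_tr μ f)
  · exact HasCompactSupport.of_compactSpace _

/-- Convolution with a continuous function as an operator on `L²(K)`. -/
noncomputable def conv (k : C(K, ℂ)) : Lp ℂ 2 μ →L[ℂ] Lp ℂ 2 μ :=
  LinearMap.mkContinuous
    { toFun := fun f => ∫ z, k z • tr μ z f ∂μ
      map_add' := fun f g => by
        rw [← integral_add (integrable_conv μ k f) (integrable_conv μ k g)]
        simp only [map_add, smul_add]
      map_smul' := fun c f => by
        rw [RingHom.id_apply, ← integral_smul]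
        congr 1
        ext1 z
        rw [map_smul, smul_comm] } (‖k‖ * μ.real Set.univ)
    (fun f => by
      simp only [LinearMap.coe_mk, AddHom.coe_mk]
      calc ‖∫ z, k z • tr μ z f ∂μ‖ ≤ (‖k‖ * ‖f‖) * μ.real Set.univ := by
            apply norm_integral_le_of_norm_le_const
            refine Eventually.of_forall fun z => ?_
            rw [norm_smul, norm_tr]
            gcongr
            exact k.norm_coe_le_norm z
        _ = _ := by ring)

theorem conv_apply (k : C(K, ℂ)) (f : Lp ℂ 2 μ) : conv μ k f = ∫ z, k z • tr μ z f ∂μ := rfl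

theorem norm_conv_le (k : C(K, ℂ)) : ‖conv μ k‖ ≤ ‖k‖ * μ.real Set.univ :=
  LinearMap.mkContinuous_norm_le _ (by positivity) _

theorem conv_comm (k : C(K, ℂ)) (A : Lp ℂ 2 μ →L[ℂ] Lp ℂ 2 μ)
    (hA : ∀ y, A * tr μ y = tr μ y * A) : A * conv μ k = conv μ k * A := by
  ext1 f
  change A (conv μ k f) = conv μ k (A f)
  rw [conv_apply, conv_apply, ← ContinuousLinearMap.integral_comp_comm A (integrable_conv μ k f)]
  congr 1
  ext1 z
  rw [map_smul]
  congr 1
  exact congrArg (fun B => B f) (hA z)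

theorem conv_sub (k l : C(K, ℂ)) : conv μ (k - l) = conv μ k - conv μ l := by
  ext1 f
  rw [sub_apply, conv_apply, conv_apply, conv_apply,
    ← integral_sub (integrable_conv μ k f) (integrable_conv μ l f)]
  simp only [ContinuousMap.sub_apply, sub_smul]

/-- The translate of a continuous function. -/
noncomputable def shift (k : C(K, ℂ)) (y : K) : C(K, ℂ) := ⟨fun z => k (y⁻¹ * z), by fun_prop⟩

theorem continuous_shift (k : C(K, ℂ)) : Continuous (shift k) := by
  apply ContinuousMap.continuous_of_continuous_uncurry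
  change Continuous (fun p : K × K => k (p.1⁻¹ * p.2))
  fun_prop

theorem tr_mul_conv (k : C(K, ℂ)) (y : K) : tr μ y * conv μ k = conv μ (shift k y) := by
  ext1 f
  change tr μ y (conv μ k f) = _
  rw [conv_apply, conv_apply, ← ContinuousLinearMap.integral_comp_comm _ (integrable_conv μ k f)]
  conv_rhs => rw [← integral_mul_left_eq_self _ y]
  congr 1
  ext1 z
  rw [map_smul, ← tr_mul_apply]
  simp [shift]

theorem continuous_tr_mul_conv (k : C(K, ℂ)) : Continuous (fun y => tr μ y * conv μ k) := by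
  simp_rw [tr_mul_conv]
  have h1 : Continuous (fun k : C(K, ℂ) => conv μ k) := by
    rw [Metric.continuous_iff]
    intro k ε hε
    refine ⟨ε / (μ.real Set.univ + 1), by positivity, fun l hl => ?_⟩
    rw [dist_eq_norm, ← conv_sub]
    calc ‖conv μ (l - k)‖ ≤ ‖l - k‖ * μ.real Set.univ := norm_conv_le μ _
      _ ≤ ‖l - k‖ * (μ.real Set.univ + 1) := by gcongr; linarith
      _ < ε / (μ.real Set.univ + 1) * (μ.real Set.univ + 1) := by
          rw [dist_eq_norm] at hl
          gcongr
      _ = ε := by field_simp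
  exact h1.comp (continuous_shift k)


/-- `conv μ k` approximates the identity on a given vector. -/
theorem exists_conv_ne_zero (u : Lp ℂ 2 μ) (hu : u ≠ 0) : ∃ k : C(K, ℂ), conv μ k u ≠ 0 := by
  have hu' : 0 < ‖u‖ := norm_pos_iff.mpr hu
  -- neighbourhood of `1` where `‖tr y u - u‖ < ‖u‖ / 2`
  have hcont : Continuous (fun y => ‖tr μ y u - u‖) := ((continuous_tr μ u).sub continuous_const).norm
  let W : Set K := {y | ‖tr μ y u - u‖ < ‖u‖ / 2}
  have hWo : IsOpen W := isOpen_lt hcont continuous_const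
  have h1W : (1 : K) ∈ W := by
    change ‖tr μ 1 u - u‖ < ‖u‖ / 2
    rw [tr_one]
    simp [hu']
  obtain ⟨g, hg0, hg1, hg01⟩ := exists_continuous_zero_one_of_isClosed (hWo.isClosed_compl)
    (isClosed_singleton (x := (1 : K))) (by
      rw [Set.disjoint_singleton_right]
      simpa using h1W)
  have hg1' : g 1 = 1 := hg1 rfl
  have hgi : Integrable (fun z => g z) μ :=
    Continuous.integrable_of_hasCompactSupport g.continuous (HasCompactSupport.of_compactSpace _)
  have hc : 0 < ∫ z, g z ∂μ := by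
    apply g.continuous.integral_pos_of_hasCompactSupport_nonneg_nonzero
      (HasCompactSupport.of_compactSpace _) (fun z => (hg01 z).1) (x := 1)
    rw [hg1']; exact one_ne_zero
  let k : C(K, ℂ) := ⟨fun z => (g z : ℂ), by fun_prop⟩
  refine ⟨k, fun h0 => ?_⟩
  have hki : Integrable (fun z => k z • u) μ :=
    Continuous.integrable_of_hasCompactSupport (k.continuous.smul continuous_const)
      (HasCompactSupport.of_compactSpace _)
  have h1 : ∫ z, k z • (tr μ z u - u) ∂μ = - ((∫ z, g z ∂μ : ℝ) : ℂ) • u := by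
    simp_rw [smul_sub]
    have hkg : ∫ x, k x ∂μ = ((∫ z, g z ∂μ : ℝ) : ℂ) := integral_ofReal
    rw [integral_sub (integrable_conv μ k u) hki, ← conv_apply, h0, zero_sub,
      integral_smul_const, neg_smul, hkg]
  have h2 : ‖∫ z, k z • (tr μ z u - u) ∂μ‖ ≤ (∫ z, g z ∂μ) * (‖u‖ / 2) := by
    rw [← integral_mul_const]
    apply norm_integral_le_of_norm_le
    · exact hgi.mul_const _
    · refine Eventually.of_forall fun z => ?_
      rw [norm_smul]
      have hkz : ‖k z‖ = g z := by
        change ‖((g z : ℝ) : ℂ)‖ = g z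
        rw [Complex.norm_real, Real.norm_of_nonneg (hg01 z).1]
      rw [hkz]
      by_cases hz : z ∈ W
      · have hz' : ‖tr μ z u - u‖ < ‖u‖ / 2 := hz
        exact mul_le_mul_of_nonneg_left hz'.le (hg01 z).1
      · have : g z = 0 := hg0 hz
        rw [this]; simp
  rw [h1, norm_smul, norm_neg, Complex.norm_real, Real.norm_of_nonneg hc.le] at h2
  nlinarith [mul_pos hc hu']

/-- Nontrivial translations act nontrivially. -/
theorem exists_tr_ne (x : K) (hx : x ≠ 1) : ∃ f : Lp ℂ 2 μ, tr μ x f - f ≠ 0 := by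
  obtain ⟨g, hg0, hg1, hg01⟩ := exists_continuous_zero_one_of_isClosed
    (isClosed_singleton (x := x)) (isClosed_singleton (x := (1 : K))) (by
      rw [Set.disjoint_singleton_right]
      simpa using hx.symm)
  have hg1' : g 1 = 1 := hg1 rfl
  have hgx : g x = 0 := hg0 rfl
  let k : C(K, ℂ) := ⟨fun z => (g z : ℂ), by fun_prop⟩
  have hk : MemLp (fun z => k z) 2 μ := k.continuous.memLp_of_hasCompactSupport (HasCompactSupport.of_compactSpace _)
  refine ⟨hk.toLp _, fun h => ?_⟩
  rw [sub_eq_zero, tr_apply, DomMulAct.mk_smul_toLp, MemLp.toLp_eq_toLp_iff] at h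
  have h2 : (fun z => k (x • z)) = fun z => k z := by
    refine Continuous.ae_eq_iff_eq μ ?_ ?_ |>.mp h
    · exact k.continuous.comp (by fun_prop)
    · exact k.continuous
  have h3 := congrFun h2 1
  simp only [smul_eq_mul, mul_one] at h3
  change ((g x : ℝ) : ℂ) = ((g 1 : ℝ) : ℂ) at h3
  rw [hg1', hgx] at h3
  norm_num at h3

include μ in
theorem exists_char_aux (x : K) (hx : x ≠ 1) : ∃ χ : PontryaginDual K, χ x ≠ 1 := by
  obtain ⟨f, hf⟩ := exists_tr_ne μ x hx
  obtain ⟨k, hk⟩ := exists_conv_ne_zero μ _ hf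
  -- the commutative C*-algebra generated by translations and `conv μ k`
  let B := Lp ℂ 2 μ →L[ℂ] Lp ℂ 2 μ
  let s : Set B := insert (conv μ k) (Set.range (tr μ))
  have htt : ∀ y z, tr μ y * tr μ z = tr μ z * tr μ y := fun y z => by
    rw [← tr_mul, ← tr_mul, mul_comm]
  have hct : ∀ y, conv μ k * tr μ y = tr μ y * conv μ k := fun y =>
    (conv_comm μ k (tr μ y) (fun z => htt y z)).symm
  have hst : ∀ y, star (conv μ k) * tr μ y = tr μ y * star (conv μ k) := fun y => by
    have h1 : tr μ y = star (tr μ y⁻¹) := by rw [star_tr, inv_inv]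
    rw [h1, ← star_mul, ← star_mul, hct]
  have hcomm1 : ∀ a ∈ s, ∀ b ∈ s, a * b = b * a := by
    rintro a (rfl | ⟨y, rfl⟩) b (rfl | ⟨z, rfl⟩)
    · rfl
    · exact hct z
    · exact (hct y).symm
    · exact htt y z
  have hcomm2 : ∀ a ∈ s, ∀ b ∈ s, a * star b = star b * a := by
    rintro a (rfl | ⟨y, rfl⟩) b (rfl | ⟨z, rfl⟩)
    · exact (conv_comm μ k (star (conv μ k)) hst).symm
    · rw [star_tr]; exact hct _
    · exact (hst y).symm
    · rw [star_tr]; exact htt _ _
  have hmc : IsMulCommutative (StarAlgebra.adjoin ℂ s) :=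
    StarAlgebra.isMulCommutative_adjoin ℂ hcomm1 hcomm2
  let A : StarSubalgebra ℂ B := (StarAlgebra.adjoin ℂ s).topologicalClosure
  have hA : IsClosed (A : Set B) := (StarAlgebra.adjoin ℂ s).isClosed_topologicalClosure
  let _ : CommRing A := (StarAlgebra.adjoin ℂ s).commRingTopologicalClosure
    (fun a b => hmc.is_comm.comm a b)
  let _ : CommCStarAlgebra A := { }
  have hsA : s ⊆ A := (StarAlgebra.subset_adjoin ℂ s).trans
    (StarSubalgebra.le_topologicalClosure _)
  let C : A := ⟨conv μ k, hsA (Or.inl rfl)⟩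
  let T : K → A := fun y => ⟨tr μ y, hsA (Or.inr ⟨y, rfl⟩)⟩
  have hT1 : T 1 = 1 := Subtype.ext (tr_one μ)
  have hTm : ∀ y z, T (y * z) = T y * T z := fun y z => Subtype.ext (tr_mul μ y z)
  have hne : C * (T x - 1) ≠ 0 := by
    intro h
    have h' : conv μ k * (tr μ x - 1) = 0 := congrArg Subtype.val h
    exact hk (congrArg (fun (D : B) => D f) h')
  obtain ⟨φ, hφ⟩ : ∃ φ : WeakDual.characterSpace ℂ A, φ (C * (T x - 1)) ≠ 0 := by
    by_contra hcon
    push Not at hcon
    apply hne
    apply (gelfandTransform_isometry A).injective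
    rw [map_zero]
    ext φ
    exact hcon φ
  rw [map_mul, map_sub, map_one] at hφ
  have hφC : φ C ≠ 0 := left_ne_zero_of_mul hφ
  have hφx : φ (T x) ≠ 1 := fun h => right_ne_zero_of_mul hφ (by rw [h, sub_self])
  have hnle : ∀ y, ‖φ (T y)‖ ≤ 1 := fun y => by
    have h1 : ‖φ (T y)‖ ≤ ‖T y‖ * ‖(1 : A)‖ :=
      AlgHom.norm_apply_le_self_mul_norm_one (WeakDual.CharacterSpace.toAlgHom φ) (T y)
    have h2 : ‖T y‖ ≤ 1 := by
      change ‖tr μ y‖ ≤ 1
      exact ContinuousLinearMap.opNorm_le_bound _ zero_le_one (fun f => by rw [norm_tr, one_mul])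
    have h3 : ‖(1 : A)‖ ≤ 1 := by
      rw [← hT1]
      change ‖tr μ 1‖ ≤ 1
      exact ContinuousLinearMap.opNorm_le_bound _ zero_le_one (fun f => by rw [norm_tr, one_mul])
    calc ‖φ (T y)‖ ≤ ‖T y‖ * ‖(1 : A)‖ := h1
      _ ≤ 1 * 1 := by gcongr
      _ = 1 := one_mul 1
  have hmul1 : ∀ y, φ (T y) * φ (T y⁻¹) = 1 := fun y => by
    rw [← map_mul, ← hTm, mul_inv_cancel, hT1, map_one]
  have hnorm : ∀ y, ‖φ (T y)‖ = 1 := fun y => by
    have h1 := hnle y
    have h2 := hnle y⁻¹
    have h3 : ‖φ (T y)‖ * ‖φ (T y⁻¹)‖ = 1 := by rw [← norm_mul, hmul1, norm_one]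
    nlinarith [norm_nonneg (φ (T y)), norm_nonneg (φ (T y⁻¹))]
  have hcont : Continuous (fun y => φ (T y)) := by
    have h1 : Continuous (fun y => φ (T y * C)) := by
      have h2 : Continuous (fun y => T y * C) := by
        apply Continuous.subtype_mk (continuous_tr_mul_conv μ k)
      exact (map_continuous φ).comp h2
    have h3 : (fun y => φ (T y)) = fun y => φ (T y * C) / φ C := by
      ext y
      rw [map_mul, mul_div_cancel_right₀ _ hφC]
    rw [h3]
    exact h1.div_const _
  let χ : K →ₜ* Circle :=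
    { toFun := fun y => ⟨φ (T y), mem_sphere_zero_iff_norm.mpr (hnorm y)⟩
      map_one' := by
        ext
        simp [hT1]
      map_mul' := fun y z => by
        ext
        simp [hTm]
      continuous_toFun := by
        apply Continuous.subtype_mk hcont }
  refine ⟨χ, fun h => hφx ?_⟩
  have h2 : ((χ x : Circle) : ℂ) = 1 := by
    rw [show χ x = 1 from h]; rfl
  exact h2

end Sep

/-- The continuous characters of a compact Hausdorff abelian group separate its points. -/
theorem exists_char_ne_one {K : Type*} [CommGroup K] [TopologicalSpace K] [IsTopologicalGroup K]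
    [CompactSpace K] [T2Space K] {x : K} (hx : x ≠ 1) : ∃ χ : PontryaginDual K, χ x ≠ 1 := by
  let _ : MeasurableSpace K := borel K
  have : BorelSpace K := ⟨rfl⟩
  exact exists_char_aux (Measure.haar : Measure K) x hx

end Pool.Agent.Lib.CompactAbelian
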