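import Mathlib
import Pool.Agent.Lib.CompactAbelian.Separation

set_option linter.unusedSectionVars false

open MeasureTheory Filter Topology
open scoped ENNReal ComplexConjugate Classical

namespace Pool.Agent.Lib.CompactAbelian

theorem continuous_char {K : Type*} [CommGroup K] [TopologicalSpace K] (χ : PontryaginDual K) :
    Continuous (fun x => ((χ x : Circle) : ℂ)) :=
  continuous_induced_dom.comp (map_continuous χ)

section Ortho

variable {K : Type*} [CommGroup K] [TopologicalSpace K] [IsTopologicalGroup K] [CompactSpace K]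
  [T2Space K] [MeasurableSpace K] [BorelSpace K] (μ : Measure K) [μ.IsHaarMeasure]
  [IsProbabilityMeasure μ]

theorem integrable_of_continuous {E : Type*} [NormedAddCommGroup E] {f : K → E}
    (hf : Continuous f) : Integrable f μ :=
  Continuous.integrable_of_hasCompactSupport hf (HasCompactSupport.of_compactSpace _)

theorem integral_char_eq_zero (χ : PontryaginDual K) (hχ : χ ≠ 1) :
    ∫ x, ((χ x : Circle) : ℂ) ∂μ = 0 := by
  obtain ⟨y, hy⟩ : ∃ y, χ y ≠ 1 := by
    by_contra h
    push Not at h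
    exact hχ (PontryaginDual.ext fun a => by rw [h a]; rfl)
  have h1 : ∫ x, ((χ x : Circle) : ℂ) ∂μ = ((χ y : Circle) : ℂ) * ∫ x, ((χ x : Circle) : ℂ) ∂μ := by
    conv_lhs => rw [← integral_mul_left_eq_self _ y]
    rw [← integral_const_mul]
    congr 1
    ext x
    rw [map_mul, Circle.coe_mul]
  have h2 : (1 - ((χ y : Circle) : ℂ)) * ∫ x, ((χ x : Circle) : ℂ) ∂μ = 0 := by
    rw [sub_mul, one_mul, ← h1, sub_self]
  rcases mul_eq_zero.mp h2 with h | h
  · exfalso
    apply hy
    ext
    rw [sub_eq_zero] at h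
    rw [← h]; rfl
  · exact h

theorem integral_char_mul (χ ψ : PontryaginDual K) :
    ∫ x, ((χ x : Circle) : ℂ) * conj ((ψ x : Circle) : ℂ) ∂μ = if χ = ψ then 1 else 0 := by
  have h0 : ∀ x, ((χ x : Circle) : ℂ) * conj ((ψ x : Circle) : ℂ) = (((χ / ψ) x : Circle) : ℂ) := by
    intro x
    rw [← Circle.coe_inv_eq_conj, ← Circle.coe_mul, ← div_eq_mul_inv]
    rfl
  simp_rw [h0]
  split_ifs with h
  · subst h
    rw [div_self']
    simp
  · exact integral_char_eq_zero μ _ (fun h' => h (div_eq_one.mp h'))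

/-- Parseval for trigonometric polynomials. -/
theorem integral_normSq_trigPoly {J : Type*} [Fintype J] (v : J → PontryaginDual K)
    (hv : Function.Injective v) (a : J → ℂ) :
    ∫ x, ‖∑ j, a j * ((v j x : Circle) : ℂ)‖ ^ 2 ∂μ = ∑ j, ‖a j‖ ^ 2 := by
  have h1 : ∀ x, ((‖∑ j, a j * ((v j x : Circle) : ℂ)‖ ^ 2 : ℝ) : ℂ) =
      ∑ j, ∑ i, a j * conj (a i) * (((v j x : Circle) : ℂ) * conj ((v i x : Circle) : ℂ)) := by
    intro x
    rw [Complex.ofReal_pow, ← Complex.mul_conj', map_sum, Finset.sum_mul_sum]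
    refine Finset.sum_congr rfl fun ψ _ => Finset.sum_congr rfl fun χ _ => ?_
    rw [map_mul]; ring
  apply Complex.ofReal_injective
  have h2 : ((∫ x, ‖∑ j, a j * ((v j x : Circle) : ℂ)‖ ^ 2 ∂μ : ℝ) : ℂ) =
      ∫ x, ((‖∑ j, a j * ((v j x : Circle) : ℂ)‖ ^ 2 : ℝ) : ℂ) ∂μ := integral_ofReal.symm
  rw [h2]
  simp_rw [h1]
  have hint : ∀ j i : J, Integrable
      (fun x => a j * conj (a i) * (((v j x : Circle) : ℂ) * conj ((v i x : Circle) : ℂ))) μ := by
    intro j i
    apply integrable_of_continuous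
    have := continuous_char (v j)
    have := continuous_char (v i)
    fun_prop
  rw [integral_finsetSum _ (fun ψ _ => integrable_finsetSum _ (fun χ _ => hint ψ χ))]
  simp_rw [integral_finsetSum _ (fun χ _ => hint _ χ), integral_const_mul, integral_char_mul]
  rw [Complex.ofReal_sum]
  refine Finset.sum_congr rfl fun j _ => ?_
  rw [Finset.sum_eq_single j]
  · rw [if_pos rfl, mul_one, Complex.mul_conj', Complex.ofReal_pow]
  · intro i _ hne
    rw [if_neg (fun h => hne (hv h).symm), mul_zero]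
  · intro h; exact absurd (Finset.mem_univ _) h

end Ortho

end Pool.Agent.Lib.CompactAbelian
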